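import Mathlib
import Pool.Agent.AMP.Bundle

/-! # Amplification: from counterexamples over `G` to many counterexamples over `G × C2` -/

set_option autoImplicit false

namespace Pool.Agent.Results.MP_8a0246_al.Amplification

open Pool.Agent.AMP Pool.Agent.AMP.FMod

/-- An indecomposable module of odd dimension. -/
def OddIndec {k G : Type} [Field k] [Group G] (V : FMod k G) : Prop :=
  V.Indecomposable ∧ Odd V.dim

/-- Let `k` be an algebraically closed field of characteristic `2`. -/
theorem result (k : Type) [Field k] [IsAlgClosed k] [CharP k 2] :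
    (∀ (G : Type) [Group G] [Finite G], IsPGroup 2 G →
      -- the odd part `U(X, Y)` of `N(Y) ⊗ X`
      (∀ Y X : FMod k G, OddIndec Y → OddIndec X →
        (∃ U R : FMod k (G × C2), (NY Y X).Isom (U.dsum R) ∧ OddIndec U ∧
          ∀ S S' : FMod k (G × C2), R.Isom (S.dsum S') → Even S.dim) ∧
        (∀ U : FMod k (G × C2), IsOddPart Y X U → ∀ m : ℕ,
          ((U.pow m).HasTriv ↔ (Y.pow m).HasTriv ∧ (X.pow m).HasTriv)) ∧
        ∀ (Y' X' : FMod k G) (U U' : FMod k (G × C2)), OddIndec Y' → OddIndec X' →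
          IsOddPart Y X U → IsOddPart Y' X' U' → (U.Isom U' ↔ Y.Isom Y' ∧ X.Isom X')) ∧
      -- the squaring inequality
      (∀ m n : ℕ, Odd m → AtLeast k m G n → AtLeast k m (G × C2) (n * n))) ∧
    -- the equivalence with subexponential growth
    (Q1 k ↔ Growth k) := by
  refine ⟨fun G _ _ hG => ⟨?_, ?_⟩, q1_iff_growth k⟩
  · intro Y X hY hX
    refine ⟨?_, ?_, ?_⟩
    · obtain ⟨U, R, h1, h2, h3, h4⟩ := exists_oddPart hG hY.1 hX.1 hY.2 hX.2
      exact ⟨U, R, h1, ⟨h2, h3⟩, h4⟩
    · intro U hU m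
      exact oddPart_pow hG hY.1 hX.1 hY.2 hX.2 hU m
    · intro Y' X' U U' hY' hX' hU hU'
      exact oddPart_iff hG hY.1 hX.1 hY.2 hX.2 hY'.1 hX'.1 hU hU'
  · intro m n hm h
    refine atLeast_sq hG ?_ h
    rintro rfl
    exact absurd hm (by decide)

end Pool.Agent.Results.MP_8a0246_al.Amplification
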