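import Mathlib
import Pool.Agent.Helper38.Gamma.Cubic

/-! # Trivial summands of odd tensor powers with a symmetry in the tensor factors -/

set_option autoImplicit false

namespace Pool.Agent.Results.MP_8a0246_al.SymmetricSummands

open Module TensorProduct PiTensorProduct

section Generic

variable {k G M P : Type} [Field k] [AddCommGroup M] [Module k M]

/-- A representation that is not a direct sum of two nonzero subrepresentations. -/
def Indecomposable [Group G] (ρ : Representation k G M) : Prop :=
  ∀ U W : Submodule k M, (∀ g, ∀ x ∈ U, ρ g x ∈ U) → (∀ g, ∀ x ∈ W, ρ g x ∈ W) →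
    IsCompl U W → U = ⊥ ∨ W = ⊥

/-- The vector `w` and the functional `T` are invariant under all operators `a g`. -/
def Invariant (a : G → M →ₗ[k] M) (w : M) (T : M →ₗ[k] k) : Prop :=
  (∀ g, a g w = w) ∧ ∀ g x, T (a g x) = T x

/-- For two commuting actions `a` of `G` and `b` of `P` on `M`: the trivial module is not a direct
summand of `M` over `G × P`, in the form that every invariant functional vanishes on every
invariant vector. -/
def NoTrivialSummand (a : G → M →ₗ[k] M) (b : P → M →ₗ[k] M) : Prop :=
  ∀ (w : M) (T : M →ₗ[k] k), Invariant a w T → Invariant b w T → T w = 0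

/-- `W` with the operators `σ g` is a direct summand of `M` with the operators `a g`, the inclusion
being `j` and the projection `r`. -/
def IsSummand {W : Type} [AddCommGroup W] [Module k W] (a : G → M →ₗ[k] M) (σ : G → W →ₗ[k] W)
    (j : W →ₗ[k] M) (r : M →ₗ[k] W) : Prop :=
  (∀ g w, j (σ g w) = a g (j w)) ∧ (∀ g x, r (a g x) = σ g (r x)) ∧ ∀ w, r (j w) = w

/-- For two commuting actions `a` of `G` and `b` of `P` on `M`: over `G × P`, `M` has no nonzero
direct summand on which `P` acts trivially. -/
def NoFixedSummand [Group G] (a : G → M →ₗ[k] M) (b : P → M →ₗ[k] M) : Prop :=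
  ∀ (W : Type) [AddCommGroup W] [Module k W] (σ : Representation k G W)
    (j : W →ₗ[k] M) (r : M →ₗ[k] W),
    IsSummand a σ j r → IsSummand b (fun _ => LinearMap.id) j r → Subsingleton W

/-- Every endomorphism of `M` that commutes with the operators `a g`, kills `w` and has image in
the kernel of `T` has trace zero. If `T w = 1` and both are invariant, these are the
`G`-endomorphisms of the kernel of `T`, extended by zero on the span of `w`, so the kernel of `T`
is negligible. -/
def Negligible (a : G → M →ₗ[k] M) (w : M) (T : M →ₗ[k] k) : Prop :=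
  ∀ f : M →ₗ[k] M, (∀ g x, f (a g x) = a g (f x)) → (∀ x, T (f x) = 0) → f w = 0 →
    LinearMap.trace k M f = 0

end Generic

section Powers

variable (k V ι : Type) [Field k] [AddCommGroup V] [Module k V]

/-- The tensor power of `V` with factors indexed by `ι`. -/
def Power : Type := ⨂[k] _ : ι, V

noncomputable instance : AddCommGroup (Power k V ι) :=
  PiTensorProduct.instAddCommGroup (R := k) (ι := ι) (s := fun _ => V)

noncomputable instance : Module k (Power k V ι) :=
  PiTensorProduct.instModule (R := k) (ι := ι) (s := fun _ => V)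

/-- The tensor product of `V` with its tensor power indexed by `ι`. -/
def Power1 : Type := Power k V ι ⊗[k] V

noncomputable instance : AddCommGroup (Power1 k V ι) :=
  TensorProduct.addCommGroup (R := k) (M := Power k V ι) (N := V)

noncomputable instance : Module k (Power1 k V ι) :=
  TensorProduct.instModule (R := k) (M := Power k V ι) (N := V)

/-- The tensor product `V ⊗ V ⊗ V`. -/
def Cube : Type := (V ⊗[k] V) ⊗[k] V

noncomputable instance : AddCommGroup (Cube k V) :=
  TensorProduct.addCommGroup (R := k) (M := V ⊗[k] V) (N := V)

noncomputable instance : Module k (Cube k V) :=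
  TensorProduct.instModule (R := k) (M := V ⊗[k] V) (N := V)

variable {k V} {G P : Type} [Group G] (ρ : Representation k G V) [Group P]

/-- The diagonal action of `G` on the tensor power of `V` indexed by `ι`. -/
noncomputable def act (g : G) : Power k V ι →ₗ[k] Power k V ι :=
  PiTensorProduct.map fun _ => ρ g

/-- The diagonal action of `G` on the tensor product of the tensor power and `V`. -/
noncomputable def act1 (g : G) : Power1 k V ι →ₗ[k] Power1 k V ι :=
  TensorProduct.map (act ι ρ g) (ρ g)

/-- The diagonal action of `G` on `V ⊗ V ⊗ V`. -/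
noncomputable def act3 (g : G) : Cube k V →ₗ[k] Cube k V :=
  TensorProduct.map (TensorProduct.map (ρ g) (ρ g)) (ρ g)

variable (k V)

/-- The action of `P` on the tensor power of `V` indexed by `ι`, permuting the factors. -/
noncomputable def perm [MulAction P ι] (p : P) : Power k V ι →ₗ[k] Power k V ι :=
  (reindex k (fun _ => V) (MulAction.toPerm p)).toLinearMap

/-- The action of `P` on the tensor product of the tensor power and `V`, permuting the factors
indexed by `ι` and fixing the last one. -/
noncomputable def perm1 [MulAction P ι] (p : P) : Power1 k V ι →ₗ[k] Power1 k V ι :=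
  TensorProduct.map (perm k V ι p) LinearMap.id

/-- The exchange of the first two factors of `V ⊗ V ⊗ V`. -/
noncomputable def swap : Cube k V →ₗ[k] Cube k V :=
  TensorProduct.map (TensorProduct.comm k V V).toLinearMap LinearMap.id

end Powers

/-- Let `V` be a nontrivial indecomposable representation of odd dimension of a finite `2`-group
`G` over an algebraically closed field of characteristic `2`. -/
theorem result (k G V : Type) [Field k] [IsAlgClosed k] [CharP k 2] [Group G] [Finite G]
    [AddCommGroup V] [Module k V] [FiniteDimensional k V] (ρ : Representation k G V)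
    (hG : IsPGroup 2 G) (hind : Indecomposable ρ) (hodd : Odd (Module.finrank k V))
    (hV : Module.finrank k V ≠ 1) :
    (∀ (P ι : Type) [Group P] [MulAction P ι] [MulAction.IsPretransitive P ι] [Fintype ι]
        [DecidableEq ι] [Nontrivial ι], IsPGroup 2 P →
      NoFixedSummand (act ι ρ) (perm k V ι (P := P)) ∧
      NoTrivialSummand (act1 ι ρ) (perm1 k V ι (P := P))) ∧
    NoTrivialSummand (act3 ρ) (fun _ : Unit => swap k V) ∧
    ∀ (w : Cube k V) (T : Cube k V →ₗ[k] k), Invariant (act3 ρ) w T → T w = 1 →
      Negligible (act3 ρ) w T → swap k V w ≠ w ∧ T ∘ₗ swap k V ≠ T := by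
  refine ⟨?_, ?_, ?_⟩
  · intro P ι _ _ _ _ _ _ hP
    refine ⟨?_, ?_⟩
    · intro W _ _ σ j r h1 h2
      exact Pool.Agent.Helper38.Gamma.thmA hP hG ρ hodd hind hV σ j r h1.1 h1.2.1
        (fun p w => (h2.1 p w).symm) h2.2.1 h1.2.2
    · intro w T h1 h2
      exact Pool.Agent.Helper38.Gamma.thmB hP hG ρ hodd hind hV w T h1.1 h1.2 h2.1 h2.2
  · intro w T h1 h2
    exact Pool.Agent.Helper38.Gamma.thmB2 hG ρ hodd hind hV w T h1.1 h1.2 (h2.1 ()) (h2.2 ())
  · intro w T h1 h2 h3
    have h := Pool.Agent.Helper38.Gamma.thmC hG ρ hodd hind hV w T h1.1 h1.2 h2 h3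
    exact ⟨h.1, fun h4 => h.2 fun x => LinearMap.congr_fun h4 x⟩

end Pool.Agent.Results.MP_8a0246_al.SymmetricSummands
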