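import Mathlib
import Pool.Agent.AMP.Bundle

/-! # Trivial direct summands of tensor powers with permutations of the factors -/

set_option autoImplicit false

namespace Pool.Agent.Results.MP_8a0246_al.TensorInduction

open Pool.Agent.AMP Pool.Agent.AMP.FMod

/-- Let `k` be an algebraically closed field of characteristic `2` and `G` a finite `2`-group. -/
theorem result (k G : Type) [Field k] [IsAlgClosed k] [CharP k 2] [Group G] [Finite G]
    (hG : IsPGroup 2 G) :
    -- `k` is a direct summand of `N(Y) ⊗ X` over `G × C2`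
    (∀ Y X : FMod k G, (NY Y X).HasTriv ↔ Y.HasTriv ∧ X.HasTriv) ∧
    -- tensor powers over `G` and a permutation of the factors of order at most two
    (∀ (V : FMod k G) (m j f : ℕ) (c : Equiv.Perm (Fin m)), c * c = 1 → m = 2 * j + f →
      Nat.card {i : Fin m // c i = i} = f →
      ((V.powSym m (Subgroup.zpowers c)).HasTriv ↔ (V.pow j).HasTriv ∧ (V.pow f).HasTriv)) ∧
    -- the smallest odd tensor power with a trivial direct summand
    (∀ (V : FMod k G) (m : ℕ), Odd m → (∀ n : ℕ, Odd n → n < m → ¬ (V.pow n).HasTriv) →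
      ∀ P : Subgroup (Equiv.Perm (Fin m)), Even (Nat.card P) → ¬ (V.powSym m P).HasTriv) := by
  refine ⟨?_, ?_, ?_⟩
  · intro Y X
    exact triv_tens_iff hG Y.ρ X.ρ
  · intro V m j f c hc hm hf
    exact triv_involution c hG hc V.ρ hm hf
  · intro V m hm hmin P hP
    exact not_triv_of_minimal hG V.ρ hm hmin P hP

end Pool.Agent.Results.MP_8a0246_al.TensorInduction
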